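import Pool.Agent.Helper64.HG.Stmts

set_option autoImplicit false

namespace Pool.Agent.Helper64.HG

/-! ### Construction of subdivided `K₄` -/

/-- first end of an edge -/
def hub_s : Fin 6 → Fin 4 := ![0, 0, 0, 1, 1, 2]
/-- second end of an edge -/
def hub_d : Fin 6 → Fin 4 := ![1, 2, 3, 2, 3, 3]
/-- the edge with given ends -/
def hub_i : Fin 4 → Fin 4 → Fin 6 := ![![0, 0, 1, 2], ![0, 0, 3, 4], ![1, 3, 0, 5], ![2, 4, 5, 0]]

/-- the family of paths -/
def hub_A {V : Type} (P : Fin 6 → List V) (i j : Fin 4) : List V :=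
  if i = j then [] else if i < j then P (hub_i i j) else (P (hub_i j i)).reverse

lemma hub_sd : ∀ i j : Fin 4, i < j → hub_s (hub_i i j) = i ∧ hub_d (hub_i i j) = j := by
  decide

lemma hub_sym : ∀ i j : Fin 4, hub_i i j = hub_i j i := by
  decide

lemma hub_inj : ∀ i j k l : Fin 4, i ≠ j → k ≠ l → ¬ (i = k ∧ j = l) → ¬ (i = l ∧ j = k) →
    hub_i i j ≠ hub_i k l := by
  decide

lemma hub_mem {V : Type} (P : Fin 6 → List V) (i j : Fin 4) (x : V) (h : x ∈ hub_A P i j) :
    x ∈ P (hub_i i j) := by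
  unfold hub_A at h
  split_ifs at h with h1 h2
  · exact absurd h List.not_mem_nil
  · exact h
  · rw [hub_sym i j]
    exact List.mem_reverse.mp h

lemma hub_anti_symm {V : Type} {G : SimpleGraph V} {A B : List V} (h : Anti G A B) :
    Anti G B A := by
  intro b hb a ha
  obtain ⟨h1, h2⟩ := h a ha b hb
  exact ⟨fun h3 => h1 h3.symm, fun h3 => h2 h3.symm⟩

lemma hub_K {V : Type} {G : SimpleGraph V} (hREV : ST_REV) (x : Fin 4 → V)
    (P : Fin 6 → List V) (hinj : Function.Injective x)
    (hl : ∀ e, (P e = [] → G.Adj (x (hub_s e)) (x (hub_d e))) ∧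
      (P e ≠ [] → ¬ G.Adj (x (hub_s e)) (x (hub_d e)) ∧
        Link G (x (hub_s e)) (P e) (x (hub_d e))))
    (hanti : ∀ e f, e < f → Anti G (P e) (P f))
    (hx : ∀ k e, k ≠ hub_s e → k ≠ hub_d e → Anti G [x k] (P e)) :
    KSys G x (hub_A P) := by
  have hne : ∀ i j : Fin 4, i ≠ j → i < j ∨ j < i := fun i j h => lt_or_gt_of_ne h
  have hlt : ∀ i j : Fin 4, i < j → hub_A P i j = P (hub_i i j) := by
    intro i j h
    unfold hub_A
    rw [if_neg h.ne, if_pos h]
  have hgt : ∀ i j : Fin 4, j < i → hub_A P i j = (P (hub_i j i)).reverse := by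
    intro i j h
    unfold hub_A
    rw [if_neg h.ne', if_neg (not_lt.mpr h.le)]
  constructor
  · exact hinj
  · intro i j
    rcases eq_or_ne i j with h | h
    · subst h
      unfold hub_A
      rw [if_pos rfl, List.reverse_nil]
    · rcases hne i j h with h1 | h1
      · rw [hgt j i h1, hlt i j h1]
      · rw [hlt j i h1, hgt i j h1, List.reverse_reverse]
  · intro i j h hA
    rcases hne i j h with h1 | h1
    · rw [hlt i j h1] at hA
      have h2 := (hl (hub_i i j)).1 hA
      rw [(hub_sd i j h1).1, (hub_sd i j h1).2] at h2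
      exact h2
    · rw [hgt i j h1, List.reverse_eq_nil_iff] at hA
      have h2 := (hl (hub_i j i)).1 hA
      rw [(hub_sd j i h1).1, (hub_sd j i h1).2] at h2
      exact h2.symm
  · intro i j h hA
    rcases hne i j h with h1 | h1
    · rw [hlt i j h1] at hA
      have h2 := ((hl (hub_i i j)).2 hA).1
      rw [(hub_sd i j h1).1, (hub_sd i j h1).2] at h2
      exact h2
    · rw [hgt i j h1, ne_eq, List.reverse_eq_nil_iff] at hA
      have h2 := ((hl (hub_i j i)).2 hA).1
      rw [(hub_sd j i h1).1, (hub_sd j i h1).2] at h2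
      exact fun h3 => h2 h3.symm
  · intro i j h hA
    rcases hne i j h with h1 | h1
    · rw [hlt i j h1] at hA ⊢
      have h2 := ((hl (hub_i i j)).2 hA).2
      rw [(hub_sd i j h1).1, (hub_sd i j h1).2] at h2
      exact h2
    · rw [hgt i j h1, ne_eq, List.reverse_eq_nil_iff] at hA
      rw [hgt i j h1]
      have h2 := ((hl (hub_i j i)).2 hA).2
      rw [(hub_sd j i h1).1, (hub_sd j i h1).2] at h2
      exact hREV V G _ _ _ h2
  · intro i j k l h1 h2 h3 h4 a ha b hb
    have h5 := hub_inj i j k l h1 h2 h3 h4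
    have ha' := hub_mem P i j a ha
    have hb' := hub_mem P k l b hb
    rcases lt_or_gt_of_ne h5 with h6 | h6
    · exact hanti _ _ h6 a ha' b hb'
    · exact hub_anti_symm (hanti _ _ h6) a ha' b hb'
  · intro i j k h1 h2 h3 a ha b hb
    have hb' := hub_mem P i j b hb
    rcases hne i j h1 with h4 | h4
    · exact hx k (hub_i i j) (by rw [(hub_sd i j h4).1]; exact h2)
        (by rw [(hub_sd i j h4).2]; exact h3) a ha b hb'
    · rw [hub_sym i j] at hb'
      exact hx k (hub_i j i) (by rw [(hub_sd j i h4).1]; exact h3)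
        (by rw [(hub_sd j i h4).2]; exact h2) a ha b hb'

/-! ### Auxiliary facts -/

lemma hub_single {V : Type} {G : SimpleGraph V} (a x b : V) (h1 : G.Adj a x) (h2 : G.Adj x b) :
    Link G a [x] b := by
  refine ⟨List.cons_ne_nil _ _, ⟨List.nodup_singleton x, ?_⟩, ?_, ?_, ?_, ?_⟩
  · intro i j hi hj hij
    rw [List.length_singleton] at hi hj
    omega
  · rw [List.mem_singleton]
    exact h1.ne
  · rw [List.mem_singleton]
    exact h2.ne'
  · intro y hy
    rw [List.mem_singleton] at hy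
    subst hy
    simp only [List.head?_cons, iff_true]
    exact h1
  · intro y hy
    rw [List.mem_singleton] at hy
    subst hy
    simp only [List.getLast?_singleton, iff_true]
    exact h2.symm

lemma hub_anti_cons {V : Type} {G : SimpleGraph V} {A B : List V} {b : V}
    (h1 : ∀ a ∈ A, a ≠ b ∧ ¬ G.Adj a b) (h2 : Anti G A B) : Anti G A (b :: B) := by
  intro a ha c hc
  rcases List.mem_cons.mp hc with h | h
  · rw [h]
    exact h1 a ha
  · exact h2 a ha c h

lemma hub_anti_sub {V : Type} {G : SimpleGraph V} {A B A' B' : List V} (h : Anti G A B)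
    (h1 : ∀ a ∈ A', a ∈ A) (h2 : ∀ b ∈ B', b ∈ B) : Anti G A' B' :=
  fun a ha b hb => h a (h1 a ha) b (h2 b hb)

lemma hub_anti_nil_left {V : Type} {G : SimpleGraph V} (B : List V) : Anti G [] B :=
  fun a ha => absurd ha List.not_mem_nil

lemma hub_anti_nil_right {V : Type} {G : SimpleGraph V} (A : List V) : Anti G A [] :=
  fun _ _ b hb => absurd hb List.not_mem_nil

/-- the case of exactly one neighbour -/
lemma hub_one {V : Type} {G : SimpleGraph V} (hSPL : ST_SPL) (hREV : ST_REV)
    (v n z1 z2 y : V) (A1 A2 B : List V) (hG : Girth5 G)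
    (hv1 : G.Adj v z1) (hv2 : G.Adj v z2) (hz : z1 ≠ z2) (hvn : G.Adj v n) (hn1 : n ≠ z1)
    (hn2 : n ≠ z2) (LA : Link G z1 (A1 ++ y :: A2) z2) (LB : Link G z1 B z2)
    (AB : Anti G (A1 ++ y :: A2) B) (vA : Anti G [v] (A1 ++ y :: A2)) (vB : Anti G [v] B)
    (nB : Anti G [n] B) (nA : n ∉ A1 ++ y :: A2) (hny : G.Adj n y)
    (h1 : ∀ x ∈ A1, ¬ G.Adj n x) (h2 : ∀ x ∈ A2, ¬ G.Adj n x) : HasK G := by
  have hyA : y ∈ A1 ++ y :: A2 := List.mem_append_right _ List.mem_cons_self
  have hA1 : ∀ a ∈ A1, a ∈ A1 ++ y :: A2 := fun a ha => List.mem_append_left _ ha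
  have hA2 : ∀ a ∈ A2, a ∈ A1 ++ y :: A2 := fun a ha =>
    List.mem_append_right _ (List.mem_cons_of_mem _ ha)
  have hvy := vA v List.mem_cons_self y hyA
  have hz12 : ¬ G.Adj z1 z2 := hG.1 z1 v z2 hv1.symm hv2
  have hz1n : ¬ G.Adj z1 n := hG.1 z1 v n hv1.symm hvn
  have hz2n : ¬ G.Adj z2 n := hG.1 z2 v n hv2.symm hvn
  have hz1y : ¬ G.Adj z1 y := fun h =>
    hG.2 v z1 y n hvy.1 hn1.symm hv1 h hny.symm hvn.symm
  have hz2y : ¬ G.Adj z2 y := fun h =>
    hG.2 v z2 y n hvy.1 hn2.symm hv2 h hny.symm hvn.symm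
  obtain ⟨s1, s2, s3, s4, s5, s6, s7, s8, s9⟩ := hSPL V G z1 y z2 A1 A2 LA
  have hA1n : A1 ≠ [] := fun h => hz1y (s1 h)
  have hA2n : A2 ≠ [] := fun h => hz2y (s3 h).symm
  obtain ⟨l1, _⟩ := s2 hA1n
  obtain ⟨l2, _⟩ := s4 hA2n
  have hBn : B ≠ [] := LB.1
  have nA1 : Anti G [n] A1 := by
    intro a ha b hb
    rw [List.mem_singleton] at ha
    subst ha
    exact ⟨fun h => nA (h ▸ hA1 b hb), h1 b hb⟩
  have nA2 : Anti G [n] A2 := by
    intro a ha b hb
    rw [List.mem_singleton] at ha
    subst ha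
    exact ⟨fun h => nA (h ▸ hA2 b hb), h2 b hb⟩
  have hrev : ∀ {A C : List V}, Anti G A C → Anti G A C.reverse := fun h =>
    hub_anti_sub h (fun _ ha => ha) (fun _ hb => List.mem_reverse.mp hb)
  have hsing : ∀ {a b : V}, a ≠ b → ¬ G.Adj a b → Anti G [a] [b] := by
    intro a b h h' c hc d hd
    rw [List.mem_singleton] at hc hd
    subst hc
    subst hd
    exact ⟨h, h'⟩
  have hK : KSys G (![v, z1, z2, y]) (hub_A (![[], [], [n], B, A1, A2.reverse])) := by
    refine hub_K hREV _ _ ?_ ?_ ?_ ?_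
    · have hv1' := hv1.ne
      have hv2' := hv2.ne
      have hvy' := hvy.1
      intro i j hij
      fin_cases i <;> fin_cases j <;>
        simp_all [Matrix.cons_val_zero, Matrix.cons_val_one]
    · intro e
      fin_cases e
      · exact ⟨fun _ => hv1, fun h => absurd rfl h⟩
      · exact ⟨fun _ => hv2, fun h => absurd rfl h⟩
      · exact ⟨fun h => absurd h (List.cons_ne_nil _ _), fun _ => ⟨hvy.2, hub_single v n y hvn hny⟩⟩
      · exact ⟨fun h => absurd h hBn, fun _ => ⟨hz12, LB⟩⟩
      · exact ⟨fun h => absurd h hA1n, fun _ => ⟨hz1y, l1⟩⟩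
      · exact ⟨fun h => absurd (List.reverse_eq_nil_iff.mp h) hA2n,
          fun _ => ⟨hz2y, hREV V G _ _ _ l2⟩⟩
    · have c23 : Anti G [n] B := nB
      have c24 : Anti G [n] A1 := nA1
      have c25 : Anti G [n] A2.reverse := hrev nA2
      have c34 : Anti G B A1 := hub_anti_symm (hub_anti_sub AB hA1 (fun _ hb => hb))
      have c35 : Anti G B A2.reverse :=
        hrev (hub_anti_symm (hub_anti_sub AB hA2 (fun _ hb => hb)))
      have c45 : Anti G A1 A2.reverse := hrev s5
      intro e f hef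
      fin_cases e <;> fin_cases f <;>
        first
        | exact hub_anti_nil_left _
        | exact absurd hef (by decide)
        | exact c23
        | exact c24
        | exact c25
        | exact c34
        | exact c35
        | exact c45
    · have d03 : Anti G [v] B := vB
      have d04 : Anti G [v] A1 := hub_anti_sub vA (fun _ ha => ha) hA1
      have d05 : Anti G [v] A2.reverse := hrev (hub_anti_sub vA (fun _ ha => ha) hA2)
      have d12 : Anti G [z1] [n] := hsing hn1.symm hz1n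
      have d15 : Anti G [z1] A2.reverse := hrev s6
      have d22 : Anti G [z2] [n] := hsing hn2.symm hz2n
      have d24 : Anti G [z2] A1 := s7
      have d33 : Anti G [y] B := hub_anti_sub AB (by
        intro a ha
        rw [List.mem_singleton] at ha
        rw [ha]
        exact hyA) (fun _ hb => hb)
      intro k e hk1 hk2
      fin_cases k <;> fin_cases e <;>
        first
        | exact hub_anti_nil_right _
        | exact absurd rfl hk1
        | exact absurd rfl hk2
        | exact d03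
        | exact d04
        | exact d05
        | exact d12
        | exact d15
        | exact d22
        | exact d24
        | exact d33
  refine ⟨_, _, hK, ?_⟩
  -- no three consecutive short edges
  have hemp : ∀ i j : Fin 4, i ≠ j → hub_A (![[], [], [n], B, A1, A2.reverse]) i j = [] →
      (i = 0 ∨ j = 0) := by
    intro i j hij h
    have hP : ∀ e : Fin 6, (![[], [], [n], B, A1, A2.reverse] : Fin 6 → List V) e = [] →
        (hub_s e = 0) := by
      intro e he
      fin_cases e
      · rfl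
      · rfl
      · rfl
      · exact absurd he hBn
      · exact absurd he hA1n
      · exact absurd (List.reverse_eq_nil_iff.mp he) hA2n
    unfold hub_A at h
    split_ifs at h with h3 h4
    · exact absurd h3 hij
    · left
      rw [← (hub_sd i j h4).1]
      exact hP _ h
    · right
      have h5 : j < i := lt_of_le_of_ne (not_lt.mp h4) (fun h => hij h.symm)
      rw [← (hub_sd j i h5).1]
      exact hP _ (List.reverse_eq_nil_iff.mp h)
  intro i j k l hij hik hil hjk hjl hkl h
  obtain ⟨e1, e2, e3⟩ := h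
  have f1 := hemp i j hij e1
  have f2 := hemp j k hjk e2
  have f3 := hemp k l hkl e3
  rcases f1 with f1 | f1
  · rcases f3 with f3 | f3
    · exact hik (f1.trans f3.symm)
    · exact hil (f1.trans f3.symm)
  · rcases f3 with f3 | f3
    · exact hjk (f1.trans f3.symm)
    · exact hjl (f1.trans f3.symm)

/-- the case of exactly two neighbours -/
lemma hub_two {V : Type} {G : SimpleGraph V} (hSPL : ST_SPL) (hCAT : ST_CAT) (hCNS : ST_CNS)
    (hCY2 : ST_CY2) (v n z1 z2 y1 y2 : V) (A1 A2 A3 B : List V) (hG : Girth5 G)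
    (hv1 : G.Adj v z1) (hv2 : G.Adj v z2) (hz : z1 ≠ z2) (hvn : G.Adj v n) (hn1 : n ≠ z1)
    (hn2 : n ≠ z2) (LA : Link G z1 ((A1 ++ y1 :: A2) ++ y2 :: A3) z2) (LB : Link G z1 B z2)
    (AB : Anti G ((A1 ++ y1 :: A2) ++ y2 :: A3) B)
    (vA : Anti G [v] ((A1 ++ y1 :: A2) ++ y2 :: A3)) (vB : Anti G [v] B)
    (nB : Anti G [n] B) (nA : n ∉ (A1 ++ y1 :: A2) ++ y2 :: A3) (hny1 : G.Adj n y1)
    (hny2 : G.Adj n y2)
    (h1 : ∀ x ∈ A1, ¬ G.Adj n x) (h3 : ∀ x ∈ A3, ¬ G.Adj n x) : HasW G := by
  have hm1 : ∀ a ∈ A1, a ∈ (A1 ++ y1 :: A2) ++ y2 :: A3 := fun a ha =>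
    List.mem_append_left _ (List.mem_append_left _ ha)
  have hmy1 : y1 ∈ (A1 ++ y1 :: A2) ++ y2 :: A3 :=
    List.mem_append_left _ (List.mem_append_right _ List.mem_cons_self)
  have hmy2 : y2 ∈ (A1 ++ y1 :: A2) ++ y2 :: A3 := List.mem_append_right _ List.mem_cons_self
  have hm3 : ∀ a ∈ A3, a ∈ (A1 ++ y1 :: A2) ++ y2 :: A3 := fun a ha =>
    List.mem_append_right _ (List.mem_cons_of_mem _ ha)
  have hy1L : y1 ∈ A1 ++ y1 :: A2 := List.mem_append_right _ List.mem_cons_self
  have hA1L : ∀ a ∈ A1, a ∈ A1 ++ y1 :: A2 := fun a ha => List.mem_append_left _ ha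
  have hz12 : ¬ G.Adj z1 z2 := hG.1 z1 v z2 hv1.symm hv2
  have hz1n : ¬ G.Adj z1 n := hG.1 z1 v n hv1.symm hvn
  have hz2n : ¬ G.Adj z2 n := hG.1 z2 v n hv2.symm hvn
  have hy12 : ¬ G.Adj y1 y2 := hG.1 y1 n y2 hny1.symm hny2
  obtain ⟨_, s2, s3, s4, s5, s6, s7, s8, s9⟩ := hSPL V G z1 y2 z2 (A1 ++ y1 :: A2) A3 LA
  obtain ⟨l1, hz1y2⟩ := s2 (fun h => by
    rw [h] at hy1L
    exact List.not_mem_nil hy1L)
  obtain ⟨t1, t2, _, _, t5, t6, t7, t8, t9⟩ := hSPL V G z1 y1 y2 A1 A2 l1
  have hz2y1 := s7 z2 List.mem_cons_self y1 hy1L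
  have nA1 : ∀ a ∈ A1, a ≠ n ∧ ¬ G.Adj a n := fun a ha =>
    ⟨fun h => nA (h ▸ hm1 a ha), fun h => h1 a ha h.symm⟩
  have nA3 : Anti G [n] A3 := by
    intro a ha b hb
    rw [List.mem_singleton] at ha
    subst ha
    exact ⟨fun h => nA (h ▸ hm3 b hb), h3 b hb⟩
  -- the right part
  have r1 : Link G n (y2 :: A3) z2 := by
    by_cases h : A3 = []
    · rw [h]
      exact hub_single n y2 z2 hny2 (s3 h)
    · obtain ⟨l2, hyz⟩ := s4 h
      exact hCNS V G n y2 z2 A3 hny2 l2 nA3 s9 (fun h => hyz h.symm)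
  have r2 : Link G y1 (n :: y2 :: A3) z2 := by
    refine hCNS V G y1 n z2 (y2 :: A3) hny1.symm r1 ?_ hn2.symm hz2n
    refine hub_anti_cons ?_ ?_
    · intro a ha
      rw [List.mem_singleton] at ha
      subst ha
      exact ⟨t9.symm, hy12⟩
    · exact hub_anti_sub s5 (fun a ha => by
        rw [List.mem_singleton] at ha
        rw [ha]
        exact hy1L) (fun _ hb => hb)
  have z1R : Anti G [z1] (n :: y2 :: A3) := by
    refine hub_anti_cons ?_ (hub_anti_cons ?_ s6)
    · intro a ha
      rw [List.mem_singleton] at ha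
      subst ha
      exact ⟨hn1.symm, hz1n⟩
    · intro a ha
      rw [List.mem_singleton] at ha
      subst ha
      exact ⟨s8, hz1y2⟩
  have r3 : Link G z1 (A1 ++ y1 :: (n :: y2 :: A3)) z2 := by
    by_cases h : A1 = []
    · rw [h]
      exact hCNS V G z1 y1 z2 (n :: y2 :: A3) (t1 h) r2 z1R hz2y1.1 hz2y1.2
    · obtain ⟨l2, hzy⟩ := t2 h
      refine hCAT V G z1 y1 z2 A1 (n :: y2 :: A3) l2 r2 ?_ z1R
        (hub_anti_sub s7 (fun _ ha => ha) hA1L) t8 hzy hz2y1.1 hz2y1.2
      refine hub_anti_cons nA1 (hub_anti_cons ?_ ?_)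
      · intro a ha
        obtain ⟨q1, q2⟩ := t7 y2 List.mem_cons_self a ha
        exact ⟨q1.symm, fun h => q2 h.symm⟩
      · exact hub_anti_sub s5 hA1L (fun _ hb => hb)
  have hanti : Anti G (A1 ++ y1 :: (n :: y2 :: A3)) B := by
    intro a ha b hb
    rcases List.mem_append.mp ha with h | h
    · exact AB a (hm1 a h) b hb
    · rcases List.mem_cons.mp h with h | h
      · rw [h]
        exact AB y1 hmy1 b hb
      · rcases List.mem_cons.mp h with h | h
        · rw [h]
          exact nB n List.mem_cons_self b hb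
        · rcases List.mem_cons.mp h with h | h
          · rw [h]
            exact AB y2 hmy2 b hb
          · exact AB a (hm3 a h) b hb
  have hIC := hCY2 V G z1 z2 (A1 ++ y1 :: (n :: y2 :: A3)) B r3 LB hanti hz hz12
  refine ⟨v, _, z1, z2, n, hIC, ?_, List.mem_cons_self, ?_, ?_, hz, hn1.symm, hn2.symm,
    hv1, hv2, hvn⟩
  · intro h
    rcases List.mem_cons.mp h with h | h
    · exact hv1.ne h
    · rcases List.mem_append.mp h with h | h
      · rcases List.mem_append.mp h with h | h
        · exact (vA v List.mem_cons_self v (hm1 v h)).1 rfl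
        · rcases List.mem_cons.mp h with h | h
          · exact (vA v List.mem_cons_self y1 hmy1).1 h
          · rcases List.mem_cons.mp h with h | h
            · exact hvn.ne h
            · rcases List.mem_cons.mp h with h | h
              · exact (vA v List.mem_cons_self y2 hmy2).1 h
              · exact (vA v List.mem_cons_self v (hm3 v h)).1 rfl
      · rcases List.mem_cons.mp h with h | h
        · exact hv2.ne h
        · exact (vB v List.mem_cons_self v (List.mem_reverse.mp h)).1 rfl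
  · exact List.mem_cons_of_mem _ (List.mem_append_right _ List.mem_cons_self)
  · exact List.mem_cons_of_mem _ (List.mem_append_left _ (List.mem_append_right _
      (List.mem_cons_of_mem _ List.mem_cons_self)))

lemma hub_first {V : Type} (p : V → Prop) (A : List V) (h : ∃ x ∈ A, p x) :
    ∃ A1 y A2, A = A1 ++ y :: A2 ∧ p y ∧ ∀ a ∈ A1, ¬ p a := by
  induction A with
  | nil =>
    obtain ⟨x, hx, _⟩ := h
    exact absurd hx List.not_mem_nil
  | cons b A ih =>
    by_cases hb : p b
    · exact ⟨[], b, A, rfl, hb, fun a ha => absurd ha List.not_mem_nil⟩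
    · obtain ⟨x, hx, hpx⟩ := h
      rcases List.mem_cons.mp hx with h1 | h1
      · rw [h1] at hpx
        exact absurd hpx hb
      · obtain ⟨A1, y, A2, h2, h3, h4⟩ := ih ⟨x, h1, hpx⟩
        refine ⟨b :: A1, y, A2, by rw [h2, List.cons_append], h3, fun a ha => ?_⟩
        rcases List.mem_cons.mp ha with h5 | h5
        · rw [h5]
          exact hb
        · exact h4 a h5

theorem st_HUB (hCY2 : ST_CY2) (hSPL : ST_SPL) (hREV : ST_REV) (hCAT : ST_CAT) (hCNS : ST_CNS)
    (_hSNC : ST_SNC) : ST_HUB := by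
  intro V G v n z1 z2 A B hG hv1 hv2 hz hvn hn1 hn2 LA LB AB vA vB nB nA hex
  have hz12 : ¬ G.Adj z1 z2 := hG.1 z1 v z2 hv1.symm hv2
  obtain ⟨A1, y1, R1, hA, hy1, h1⟩ := hub_first (fun x => G.Adj n x) A hex
  by_cases h2 : ∃ x ∈ R1, G.Adj n x
  · left
    obtain ⟨A2, y2, R2, hR1, hy2, _⟩ := hub_first (fun x => G.Adj n x) R1 h2
    have hA' : A = (A1 ++ y1 :: A2) ++ y2 :: R2 := by
      rw [hA, hR1]
      simp
    by_cases h3 : ∃ x ∈ R2, G.Adj n x
    · obtain ⟨x, hx, hnx⟩ := h3
      have hIC := hCY2 V G z1 z2 A B LA LB AB hz hz12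
      have hnd : A.Nodup := LA.2.1.1
      have hm1 : y1 ∈ A := by rw [hA]; exact List.mem_append_right _ List.mem_cons_self
      have hm2 : y2 ∈ A := by rw [hA']; exact List.mem_append_right _ List.mem_cons_self
      have hm3 : x ∈ A := by
        rw [hA']
        exact List.mem_append_right _ (List.mem_cons_of_mem _ hx)
      have hnd1 : (y1 :: R1).Nodup := by
        rw [hA] at hnd
        exact (List.nodup_append.mp hnd).2.1
      have hy1R : y1 ∉ R1 := (List.nodup_cons.mp hnd1).1
      have hnd2 : (y2 :: R2).Nodup := by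
        have h4 := (List.nodup_cons.mp hnd1).2
        rw [hR1] at h4
        exact (List.nodup_append.mp h4).2.1
      have hy2R : y2 ∉ R2 := (List.nodup_cons.mp hnd2).1
      have hsub : ∀ a ∈ A, a ∈ z1 :: (A ++ z2 :: B.reverse) := fun a ha =>
        List.mem_cons_of_mem _ (List.mem_append_left _ ha)
      refine ⟨n, _, y1, y2, x, hIC, ?_, hsub _ hm1, hsub _ hm2, hsub _ hm3, ?_, ?_, ?_,
        hy1, hy2, hnx⟩
      · intro h
        rcases List.mem_cons.mp h with h | h
        · exact hn1 h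
        · rcases List.mem_append.mp h with h | h
          · exact nA h
          · rcases List.mem_cons.mp h with h | h
            · exact hn2 h
            · exact (nB n List.mem_cons_self n (List.mem_reverse.mp h)).1 rfl
      · intro h
        apply hy1R
        rw [h, hR1]
        exact List.mem_append_right _ List.mem_cons_self
      · intro h
        apply hy1R
        rw [h, hR1]
        exact List.mem_append_right _ (List.mem_cons_of_mem _ hx)
      · intro h
        apply hy2R
        rw [h]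
        exact hx
    · rw [hA'] at LA AB vA nA
      exact hub_two hSPL hCAT hCNS hCY2 v n z1 z2 y1 y2 A1 A2 R2 B hG hv1 hv2 hz hvn hn1 hn2
        LA LB AB vA vB nB nA hy1 hy2 h1 (fun x hx h => h3 ⟨x, hx, h⟩)
  · right
    rw [hA] at LA AB vA nA
    exact hub_one hSPL hREV v n z1 z2 y1 A1 R1 B hG hv1 hv2 hz hvn hn1 hn2 LA LB AB vA vB nB nA
      hy1 h1 (fun x hx h => h2 ⟨x, hx, h⟩)

end Pool.Agent.Helper64.HG
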